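import Pool.Agent.MRX.Main

/-!
# Mutual refinements of triangulations of the 3-torus have at least exponential size
-/

set_option autoImplicit false

namespace Pool.Agent.Results.MP_ddc35d_gt.TorusRefinements

open MRX

/-- Every two triangulations of the 3-torus have a mutual refinement with at most
`f (|K| + |L|)` tetrahedra. -/
def BoundsTorusRefinements (f : ℕ → ℕ) : Prop :=
  ∀ (κ ι : Type) [Fintype κ] [Fintype ι] (K : Geometry.SimplicialComplex ℝ (κ → ℝ))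
    (L : Geometry.SimplicialComplex ℝ (ι → ℝ)), IsTriangulation K T3 → IsTriangulation L T3 →
    ∃ (R : Geometry.SimplicialComplex ℝ (κ → ℝ)) (R' : Geometry.SimplicialComplex ℝ (ι → ℝ)),
      IsSubdivision R K ∧ IsSubdivision R' L ∧ SimplicialIso R R' ∧
        numTet R ≤ f (numTet K + numTet L)

theorem result :
    (∃ (κ : ℕ → Type) (_ : ∀ n, Fintype (κ n))
      (K : ∀ n, Geometry.SimplicialComplex ℝ (κ n → ℝ)),
      (∀ n, IsTriangulation (K n) T3 ∧ numTet (K n) ≤ 108 * (n + 2)) ∧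
      ∀ (ι : Type) [Fintype ι] (L : Geometry.SimplicialComplex ℝ (ι → ℝ)),
        IsTriangulation L T3 → ∃ C : ℝ, 0 < C ∧
          ∀ (n : ℕ) (R : Geometry.SimplicialComplex ℝ (κ n → ℝ))
            (R' : Geometry.SimplicialComplex ℝ (ι → ℝ)), IsSubdivision R (K n) →
            IsSubdivision R' L → SimplicialIso R R' → (2 : ℝ) ^ n ≤ (C * numTet R) ^ 4) ∧
    ∀ f : ℕ → ℕ, Monotone f → BoundsTorusRefinements f →
      ∃ m₀ : ℕ, ∀ m ≥ m₀, 2 ^ m ≤ (f m) ^ 500 := by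
  obtain ⟨κ, hκ, K, hK, hmain⟩ := family
  refine ⟨⟨κ, hκ, K, hK, fun ι _ L hL => hmain L hL⟩, ?_⟩
  intro f hf hb
  obtain ⟨C, hC, hlow⟩ := hmain (K 0) (hK 0).1
  obtain ⟨k0, hk0⟩ : ∃ k0 : ℕ, C ^ 500 ≤ (2 : ℝ) ^ k0 := pow_unbounded_of_one_lt _ (by norm_num) |>.imp
    fun _ h => h.le
  refine ⟨432 + 108 * (33 + k0), fun m hm => ?_⟩
  set n := (m - 432) / 108 with hn
  have hn1 : 108 * n + 432 ≤ m := by omega
  have hn2 : m < 108 * n + 540 := by omega
  have hn3 : 33 + k0 ≤ n := by omega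
  obtain ⟨R, R', hR, hR', hiso, hnum⟩ := hb _ _ (K n) (K 0) (hK n).1 (hK 0).1
  have h1 := hlow n R R' hR hR' hiso
  have h2 : numTet R ≤ f m := by
    refine hnum.trans (hf ?_)
    have := (hK n).2
    have := (hK 0).2
    omega
  have h3 : (2 : ℝ) ^ (125 * n) ≤ 2 ^ k0 * (f m : ℝ) ^ 500 := by
    calc (2 : ℝ) ^ (125 * n) = (2 ^ n) ^ 125 := by rw [← pow_mul, mul_comm]
      _ ≤ ((C * numTet R) ^ 4) ^ 125 := by gcongr
      _ = C ^ 500 * (numTet R : ℝ) ^ 500 := by rw [← pow_mul, mul_pow]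
      _ ≤ 2 ^ k0 * (f m : ℝ) ^ 500 := by
        gcongr
  have h4 : (2 : ℝ) ^ k0 * 2 ^ m ≤ 2 ^ k0 * (f m : ℝ) ^ 500 := by
    refine le_trans ?_ h3
    rw [← pow_add]
    exact pow_le_pow_right₀ (by norm_num) (by omega)
  have h5 : (2 : ℝ) ^ m ≤ (f m : ℝ) ^ 500 := le_of_mul_le_mul_left h4 (by positivity)
  exact_mod_cast h5

end Pool.Agent.Results.MP_ddc35d_gt.TorusRefinements
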